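import Pool.Agent.E8helper30.RG.Stm

/-!
# Project RG: the degree inequality
-/

set_option autoImplicit false

namespace Pool.Agent.E8helper89.RG

open Pool.Agent.E8helper30.RG
open scoped Classical

theorem t_Q : S_Q := by
  intro n G W
  have h1 : ∑ p ∈ darts G W, dg G W p.1 = ∑ v ∈ W, dg G W v ^ 2 := by
    unfold darts
    rw [Finset.sum_filter, Finset.sum_product]
    refine Finset.sum_congr rfl fun v hv => ?_
    dsimp only
    rw [← Finset.sum_filter, Finset.sum_const, smul_eq_mul, pow_two]
    rfl
  have h2 : ∑ p ∈ darts G W, dg G W p.2 = ∑ v ∈ W, dg G W v ^ 2 := by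
    unfold darts
    rw [Finset.sum_filter, Finset.sum_product_right]
    refine Finset.sum_congr rfl fun v hv => ?_
    dsimp only
    rw [← Finset.sum_filter, Finset.sum_const, smul_eq_mul, pow_two]
    congr 1
    unfold dg
    congr 1
    ext x
    simp [G.adj_comm]
  have h3 : (tri G W).card =
      ∑ p ∈ darts G W, (W.filter fun z => G.Adj p.2 z ∧ G.Adj z p.1).card := by
    unfold tri darts
    rw [Finset.card_filter, Finset.sum_product, Finset.sum_filter, Finset.sum_product]
    refine Finset.sum_congr rfl fun x hx => ?_
    rw [Finset.sum_product]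
    refine Finset.sum_congr rfl fun y hy => ?_
    by_cases h : G.Adj x y
    · simp only [h, true_and, if_true, Finset.card_filter]
    · simp [h]
  have h4 : ∀ p ∈ darts G W, dg G W p.1 + dg G W p.2 ≤
      W.card + (W.filter fun z => G.Adj p.2 z ∧ G.Adj z p.1).card := by
    intro p hp
    have e := Finset.card_union_add_card_inter (W.filter fun w => G.Adj p.1 w)
      (W.filter fun w => G.Adj p.2 w)
    have e1 : ((W.filter fun w => G.Adj p.1 w) ∪ (W.filter fun w => G.Adj p.2 w)).card ≤ W.card :=
      Finset.card_le_card (Finset.union_subset (Finset.filter_subset _ _)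
        (Finset.filter_subset _ _))
    have e2 : ((W.filter fun w => G.Adj p.1 w) ∩ (W.filter fun w => G.Adj p.2 w)) =
        W.filter fun z => G.Adj p.2 z ∧ G.Adj z p.1 := by
      ext z
      simp only [Finset.mem_inter, Finset.mem_filter, G.adj_comm z p.1]
      tauto
    rw [e2] at e
    unfold dg
    omega
  have h5 := Finset.sum_le_sum h4
  rw [Finset.sum_add_distrib, Finset.sum_add_distrib, h1, h2, ← h3, Finset.sum_const,
    smul_eq_mul] at h5
  have h6 : (darts G W).card * W.card = W.card * (darts G W).card := mul_comm _ _
  omega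

end Pool.Agent.E8helper89.RG
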